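import Pool.Agent.Lib.MP_44343f_gt.Defs
import Pool.Agent.Lib.MP_44343f_gt.Sub

open scoped ContDiff
open Pool.Agent.Lib.MP_44343f_gt

/-- A complete, closed embedded, biharmonic, non-minimal hypersurface `ℝ⁴ → (ℝ⁵, h)` of a complete
Riemannian manifold with sectional curvature `≤ 0`. With `t = p 0`, `s = p 1`, the metric is
`h = dt² + e^{2st + (3+s²)t²} (ds² + e^{4s² + 2s⁴} |dx|²)` and the hypersurface is `t = 0`. -/
theorem Pool.Agent.Results.MP_44343f_gt.Counterexample.result :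
    ∃ (h : (Fin 5 → ℝ) → Matrix (Fin 5) (Fin 5) ℝ) (φ : (Fin 4 → ℝ) → Fin 5 → ℝ),
      (∀ p, h p = Matrix.diagonal fun i =>
        if i = 0 then 1
        else Real.exp (2 * p 1 * p 0 + (3 + p 1 ^ 2) * p 0 ^ 2) *
          if i = 1 then 1 else Real.exp (4 * p 1 ^ 2 + 2 * p 1 ^ 4)) ∧
      (∀ q, φ q = ![0, q 0, q 1, q 2, q 3]) ∧
      IsMetric h ∧ Complete h ∧
      (∀ p X Y : Fin 5 → ℝ, LinearIndependent ℝ ![X, Y] → sec h p X Y ≤ 0) ∧
      ContDiff ℝ ∞ φ ∧ (∀ x, Function.Injective (fderiv ℝ φ x)) ∧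
      Topology.IsClosedEmbedding φ ∧
      IsMetric (pull h φ) ∧ Complete (pull h φ) ∧
      (∀ x, bitension h φ x = 0) ∧ ∃ x, tension h φ x ≠ 0 := by
  refine ⟨dmet uN, emb, fun p => ?_, fun _ => rfl, dmet_isMetric uN cd_uN, complete_N,
    fun p X Y _ => sec_nonpos p X Y,
    cd_emb, emb_immersion, emb_closedEmbedding, ?_, complete_M, bitension_emb, fun _ => 1, ?_⟩
  · rw [dmet]
    congr 1
    ext i
    fin_cases i <;> simp [uN, F0, P0, ← Real.exp_add] <;> ring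
  · rw [pull_emb]
    exact dmet_isMetric uM cd_uM
  · rw [tension_emb]
    intro h
    have := congrFun h 0
    simp [tau] at this
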